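import Pool.Agent.Helper99.WP.GoalsW

/-!
# WP, packet IND: independence for finite products
-/

open Finset

namespace Pool.Agent.Helper61.WP

open Pool.Agent.Helper99.WP Pool.Agent.Helper99.ERW

/-- Bilinear bookkeeping for `IND`. -/
theorem ind_aux {β γ : Type} [Fintype β] [Fintype γ] (P : β → ℝ) (Q : γ → ℝ) (F G : β → γ → ℝ)
    (hP : ∑ b, P b = 1) (hQ : ∑ c, Q c = 1) (hF : ∀ b c c', F b c = F b c')
    (hG : ∀ b b' c, G b c = G b' c) :
    ∑ b, ∑ c, P b * Q c * (F b c * G b c) =
      (∑ b, ∑ c, P b * Q c * F b c) * ∑ b, ∑ c, P b * Q c * G b c := by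
  have e1 : (∑ b, ∑ c, P b * Q c * F b c) * (∑ b, ∑ c, P b * Q c * G b c) =
      ∑ b, ∑ c, ∑ b', ∑ c', (P b * Q c' * (F b c' * G b c')) * (Q c * P b') := by
    rw [Finset.sum_mul]
    refine Finset.sum_congr rfl fun b _ => ?_
    rw [Finset.sum_mul]
    refine Finset.sum_congr rfl fun c _ => ?_
    rw [Finset.mul_sum]
    refine Finset.sum_congr rfl fun b' _ => ?_
    rw [Finset.mul_sum]
    refine Finset.sum_congr rfl fun c' _ => ?_
    rw [hF b c c', hG b' b c']
    ring
  rw [e1]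
  refine Finset.sum_congr rfl fun b _ => ?_
  have e2 : ∀ c, ∑ b', ∑ c', (P b * Q c' * (F b c' * G b c')) * (Q c * P b') =
      (∑ c', P b * Q c' * (F b c' * G b c')) * Q c := by
    intro c
    have : ∀ b', ∑ c', (P b * Q c' * (F b c' * G b c')) * (Q c * P b') =
        ((∑ c', P b * Q c' * (F b c' * G b c')) * Q c) * P b' := by
      intro b'
      rw [← Finset.sum_mul, mul_assoc]
    rw [Finset.sum_congr rfl fun b' _ => this b', ← Finset.mul_sum, hP, mul_one]
  rw [Finset.sum_congr rfl fun c _ => e2 c, ← Finset.mul_sum, hQ, mul_one]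

theorem IND : IND_stmt := by
  intro ι α _ _ _ w hw S f g hf hg
  classical
  let e := Equiv.piEquivPiSubtypeProd (fun i => i ∈ S) (fun _ : ι => α)
  have key : ∀ h : (ι → α) → ℝ, ∑ a : ι → α, (∏ i, w i (a i)) * h a =
      ∑ b : ({i : ι // i ∈ S} → α), ∑ c : ({i : ι // i ∉ S} → α),
        (∏ i : {i : ι // i ∈ S}, w i.1 (b i)) * (∏ i : {i : ι // i ∉ S}, w i.1 (c i)) *
          h (e.symm (b, c)) := by
    intro h
    rw [← e.symm.sum_comp, Fintype.sum_prod_type]
    refine Finset.sum_congr rfl fun b _ => Finset.sum_congr rfl fun c _ => ?_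
    congr 1
    rw [← Fintype.prod_subtype_mul_prod_subtype (fun i => i ∈ S)]
    congr 1
    · refine Finset.prod_congr (by ext; simp) fun i _ => ?_
      simp [e, Equiv.piEquivPiSubtypeProd, i.2]
    · refine Finset.prod_congr (by ext; simp) fun i _ => ?_
      simp [e, Equiv.piEquivPiSubtypeProd, i.2]
  have hP : ∑ b : ({i : ι // i ∈ S} → α), (∏ i : {i : ι // i ∈ S}, w i.1 (b i)) = 1 := by
    have := Finset.prod_univ_sum (fun _ : {i // i ∈ S} => (Finset.univ : Finset α))
      (fun i a => w i a)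
    rw [Fintype.piFinset_univ] at this
    rw [← this]
    exact Finset.prod_eq_one fun i _ => hw i
  have hQ : ∑ c : ({i : ι // i ∉ S} → α), (∏ i : {i : ι // i ∉ S}, w i.1 (c i)) = 1 := by
    have := Finset.prod_univ_sum (fun _ : {i // i ∉ S} => (Finset.univ : Finset α))
      (fun i a => w i a)
    rw [Fintype.piFinset_univ] at this
    rw [← this]
    exact Finset.prod_eq_one fun i _ => hw i
  rw [key, key, key]
  refine ind_aux (fun b => ∏ i : {i : ι // i ∈ S}, w i.1 (b i))
    (fun c => ∏ i : {i : ι // i ∉ S}, w i.1 (c i)) (fun b c => f (e.symm (b, c)))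
    (fun b c => g (e.symm (b, c))) hP hQ ?_ ?_
  · intro b c c'
    refine hf _ _ fun i hi => ?_
    simp [e, Equiv.piEquivPiSubtypeProd, hi]
  · intro b b' c
    refine hg _ _ fun i hi => ?_
    simp [e, Equiv.piEquivPiSubtypeProd, hi]

end Pool.Agent.Helper61.WP
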