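import Pool.Agent.Helper99.WP.GoalsW

/-!
# WP, packet KEY: the key identity
-/

open Finset

namespace Pool.Agent.Helper61.WP

open Pool.Agent.Helper99.WP Pool.Agent.Helper99.ERW

theorem KEY (hCON : CON_stmt) (hTRM : TRM_stmt) (hFRZ : FRZ_stmt) (hCRM : CRM_stmt)
    (hFAC : FAC_stmt) : KEY_stmt := by
  intro V _ _ W N x i hW hD
  classical
  obtain ⟨-, hT2, -, hT4⟩ := hTRM V N
  set S : Finset (V → ℕ) := (Fintype.piFinset fun _ : V => Finset.range (N + 1)).filter
    (fun n => n x = i) with hS
  have hmem : ∀ n : V → ℕ, n ∈ S ↔ (∀ y, n y ≤ N) ∧ n x = i := by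
    intro n
    simp only [hS, Finset.mem_filter, Fintype.mem_piFinset, Finset.mem_range, Nat.lt_succ_iff]
  -- the left side
  have L1 : ∀ a : V → Fin N → Option V, (if i ≤ nst (ext a) x then (1 : ℝ) else 0) =
      ∑ n ∈ S, (if Reach (ext a) 0 n then (1 : ℝ) else 0) *
        (if Acyc (Function.update (top (ext a) n) x none) then (1 : ℝ) else 0) := by
    intro a
    obtain ⟨hTr, -, -⟩ := hT4 a
    obtain ⟨hF1, hF2⟩ := hFRZ V N (ext a) x i hTr
    by_cases h : i ≤ nst (ext a) x
    · obtain ⟨n, hn1, hn2, hn3⟩ := hF1.2 h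
      have hnS : n ∈ S := (hmem n).2 ⟨hT2 _ _ hTr hn1, hn2⟩
      rw [if_pos h, Finset.sum_eq_single n]
      · rw [if_pos hn1, if_pos hn3, mul_one]
      · intro m hm hmn
        by_cases h1 : Reach (ext a) 0 m
        · by_cases h2 : Acyc (Function.update (top (ext a) m) x none)
          · exact absurd (hF2 m n ⟨h1, ((hmem m).1 hm).2, h2⟩ ⟨hn1, hn2, hn3⟩) hmn
          · rw [if_neg h2, mul_zero]
        · rw [if_neg h1, zero_mul]
      · intro h'
        exact absurd hnS h'
    · rw [if_neg h]
      symm
      refine Finset.sum_eq_zero fun n hn => ?_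
      by_cases h1 : Reach (ext a) 0 n
      · by_cases h2 : Acyc (Function.update (top (ext a) n) x none)
        · exact absurd (hF1.1 ⟨n, h1, ((hmem n).1 hn).2, h2⟩) h
        · rw [if_neg h2, mul_zero]
      · rw [if_neg h1, zero_mul]
  have L2 : vis W N x i = ∑ n ∈ S, PE W N n * DX (rowW W N n) x := by
    unfold vis
    have : ∀ a : V → Fin N → Option V, prb W N a * (if i ≤ nst (ext a) x then (1 : ℝ) else 0) =
        ∑ n ∈ S, prb W N a * ((if Reach (ext a) 0 n then (1 : ℝ) else 0) *
          (fun c : V → Option V => if Acyc (Function.update c x none) then (1 : ℝ) else 0)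
            (top (ext a) n)) := by
      intro a
      rw [L1 a, Finset.mul_sum]
    rw [Finset.sum_congr rfl fun a _ => this a, Finset.sum_comm]
    refine Finset.sum_congr rfl fun n hn => ?_
    exact hFAC V W N n
      (fun c : V → Option V => if Acyc (Function.update c x none) then (1 : ℝ) else 0) hW
      ((hmem n).1 hn).1
  -- the right side
  have R1 : ∀ a : V → Fin N → Option V,
      (if nst (ext a) x = i then Gmat (rowW W N (nst (ext a))) x x else 0) =
      ∑ n ∈ S, (if Reach (ext a) 0 n then (1 : ℝ) else 0) *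
        (if Acyc (top (ext a) n) then Gmat (rowW W N n) x x else 0) := by
    intro a
    obtain ⟨hTr, hterm, hle⟩ := hT4 a
    have huniq : ∀ n, Reach (ext a) 0 n → Acyc (top (ext a) n) → n = nst (ext a) := by
      intro n h1 h2
      exact (hCON V (ext a) n (nst (ext a))).2 ⟨h1, h2⟩ hterm
    by_cases h : nst (ext a) x = i
    · have hnS : nst (ext a) ∈ S := (hmem _).2 ⟨hle, h⟩
      rw [if_pos h, Finset.sum_eq_single (nst (ext a))]
      · rw [if_pos hterm.1, if_pos hterm.2, one_mul]
      · intro m hm hmn
        by_cases h1 : Reach (ext a) 0 m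
        · by_cases h2 : Acyc (top (ext a) m)
          · exact absurd (huniq m h1 h2) hmn
          · rw [if_neg h2, mul_zero]
        · rw [if_neg h1, zero_mul]
      · intro h'
        exact absurd hnS h'
    · rw [if_neg h]
      symm
      refine Finset.sum_eq_zero fun n hn => ?_
      by_cases h1 : Reach (ext a) 0 n
      · by_cases h2 : Acyc (top (ext a) n)
        · have := huniq n h1 h2
          rw [← this] at h
          exact absurd ((hmem n).1 hn).2 h
        · rw [if_neg h2, mul_zero]
      · rw [if_neg h1, zero_mul]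
  have R2 : (∑ a : V → Fin N → Option V, prb W N a *
      if nst (ext a) x = i then Gmat (rowW W N (nst (ext a))) x x else 0) =
      ∑ n ∈ S, PE W N n * (DD (rowW W N n) * Gmat (rowW W N n) x x) := by
    have : ∀ a : V → Fin N → Option V, prb W N a *
        (if nst (ext a) x = i then Gmat (rowW W N (nst (ext a))) x x else 0) =
        ∑ n ∈ S, prb W N a * ((if Reach (ext a) 0 n then (1 : ℝ) else 0) *
          (fun c : V → Option V => if Acyc c then Gmat (rowW W N n) x x else 0)
            (top (ext a) n)) := by
      intro a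
      rw [R1 a, Finset.mul_sum]
    rw [Finset.sum_congr rfl fun a _ => this a, Finset.sum_comm]
    refine Finset.sum_congr rfl fun n hn => ?_
    have hfac := hFAC V W N n
      (fun c : V → Option V => if Acyc c then Gmat (rowW W N n) x x else 0) hW
      ((hmem n).1 hn).1
    refine hfac.trans ?_
    congr 1
    unfold DD
    rw [Finset.sum_mul]
    refine Finset.sum_congr rfl fun c _ => ?_
    by_cases hc : Acyc c
    · simp only [if_pos hc, mul_one]
    · simp only [if_neg hc, mul_zero, zero_mul]
  rw [L2, R2]
  refine Finset.sum_congr rfl fun n hn => ?_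
  congr 1
  refine hCRM V (rowW W N n) x ?_ (hD n ((hmem n).1 hn).1)
  intro y
  unfold rowW
  by_cases hy : n y < N
  · rw [if_pos hy]
    exact (hW y (n y)).2
  · rw [if_neg hy]
    simp

end Pool.Agent.Helper61.WP
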